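import Pool.Agent.H10.GM.Targets1

/-!
# (CRA) a minimal relation between `K` and `E` with `p` disjoint paths
-/

set_option autoImplicit false

namespace Pool.Agent.H18.GM

open Pool.Agent.H55.GW Pool.Agent.H10.GM

theorem pf_CRA (hMEN : T_MEN) : T_CRA := by
  intro V _ E K hE hK hKE p A B hL
  classical
  have hex : ∃ (n : ℕ) (D : V → V → Prop), (Sy D ∧ (∀ u v, K u v → D u v) ∧
      (∀ u v, D u v → E u v) ∧ Lnk D p A B) ∧ {e : V × V | D e.1 e.2}.ncard = n :=
    ⟨_, E, ⟨hE, hKE, fun _ _ h => h, hL⟩, rfl⟩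
  obtain ⟨D, hD, hn⟩ := Nat.find_spec hex
  refine ⟨D, hD.1, hD.2.1, hD.2.2.1, hD.2.2.2, fun a b hab hKab => ?_⟩
  by_contra hcon
  push Not at hcon
  have h1 : Lnk (del D a b) p A B := by
    refine hMEN V (del D a b) Set.univ (Set.toFinite _) (fun _ _ _ => ⟨trivial, trivial⟩) A B
      (Set.subset_univ _) (Set.subset_univ _) p fun S hS => ?_
    by_contra h
    exact hcon S (by omega) hS
  have h2 : Sy (del D a b) ∧ (∀ u v, K u v → del D a b u v) ∧
      (∀ u v, del D a b u v → E u v) ∧ Lnk (del D a b) p A B := by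
    refine ⟨del_sy hD.1, fun u v huv => ⟨hD.2.1 u v huv, ?_, ?_⟩,
      fun u v h => hD.2.2.1 u v h.1, h1⟩
    · rintro ⟨rfl, rfl⟩
      exact hKab huv
    · rintro ⟨rfl, rfl⟩
      exact hKab (hK _ _ huv)
  have h3 := Nat.find_min' hex ⟨del D a b, h2, rfl⟩
  rw [← hn] at h3
  have h4 : {e : V × V | del D a b e.1 e.2} ⊂ {e : V × V | D e.1 e.2} := by
    refine ⟨fun e he => he.1, fun h => ?_⟩
    have h5 : del D a b a b := h (show D (a, b).1 (a, b).2 from hab)
    exact h5.2.1 ⟨rfl, rfl⟩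
  have h5 := Set.ncard_lt_ncard h4 (Set.toFinite _)
  omega

end Pool.Agent.H18.GM
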