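import Pool.Agent.H10.GM.Targets1

/-!
# (CRB) the two sides of a separator
-/

set_option autoImplicit false

namespace Pool.Agent.H18.GM

open Pool.Agent.H55.GW Pool.Agent.H10.GM

/-- a segment of a path is a walk -/
private theorem seg {V : Type} {D : V → V → Prop} {Z : Set V} {Q : ℕ → V} {a : ℕ} :
    ∀ b, a ≤ b → (∀ i, a ≤ i → i ≤ b → Q i ∈ Z) → (∀ i, a ≤ i → i < b → D (Q i) (Q (i + 1))) →
      RIn D Z (Q a) (Q b) := by
  intro b hab
  induction b, hab using Nat.le_induction with
  | base => exact fun h _ => RIn.refl (h a le_rfl le_rfl)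
  | succ b hb ih =>
    intro h1 h2
    exact (ih (fun i hi hi' => h1 i hi (by omega)) fun i hi hi' => h2 i hi (by omega)).tail
      (h2 b hb (by omega)) (h1 (b + 1) (by omega) le_rfl)

theorem pf_CRB : T_CRB := by
  intro V D K hD hK hKD p A B P len hP q m hm hKm S hS hsep
  classical
  -- the edges of the paths except the deleted one
  have hedge : ∀ j i, i < len j → (j ≠ q ∨ i ≠ m) →
      del D (P q m) (P q (m + 1)) (P j i) (P j (i + 1)) := by
    intro j i hi hji
    refine ⟨(hP.pth j).1 i hi, ?_, ?_⟩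
    · rintro ⟨h1, h2⟩
      by_cases hj : j = q
      · subst hj
        rcases hji with h | h
        · exact h rfl
        · exact h ((hP.pth j).2 i hi.le m hm.le h1)
      · exact hP.dj j q hj i hi.le m hm.le h1
    · rintro ⟨h1, h2⟩
      by_cases hj : j = q
      · subst hj
        have h3 := (hP.pth j).2 i hi.le (m + 1) hm h1
        have h4 := (hP.pth j).2 (i + 1) hi m hm.le h2
        omega
      · exact hP.dj j q hj i hi.le (m + 1) hm h1
  -- the points of the separator
  have hx : ∀ j, ∃ x, j ≠ q → x ≤ len j ∧ P j x ∈ S := by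
    intro j
    by_cases hj : j = q
    · exact ⟨0, fun h => absurd hj h⟩
    · by_contra hcon
      push Not at hcon
      refine hsep _ (hP.st j) _ (hP.en j) (seg (len j) (Nat.zero_le _) (fun i _ hi => ?_)
        fun i _ hi => hedge j i hi (Or.inl hj))
      exact fun h => (hcon i).2 hi h
  choose x hx using hx
  have hinj : Set.InjOn (fun j => P j (x j)) ((Finset.univ.erase q : Finset (Fin p)) : Set (Fin p)) := by
    intro j hj j' hj' h
    by_contra hne
    have h1 : j ≠ q := Finset.ne_of_mem_erase (Finset.mem_coe.1 hj)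
    have h2 : j' ≠ q := Finset.ne_of_mem_erase (Finset.mem_coe.1 hj')
    exact hP.dj j j' hne _ (hx j h1).1 _ (hx j' h2).1 h
  have himg : (Finset.univ.erase q).image (fun j => P j (x j)) = S := by
    refine Finset.eq_of_subset_of_card_le ?_ ?_
    · intro v hv
      obtain ⟨j, hj, rfl⟩ := Finset.mem_image.1 hv
      exact (hx j (Finset.ne_of_mem_erase hj)).2
    · rw [Finset.card_image_of_injOn hinj, Finset.card_erase_of_mem (Finset.mem_univ q),
        Finset.card_univ, Fintype.card_fin]
      omega
  have hSj : ∀ j t, t ≤ len j → P j t ∈ S → j ≠ q ∧ t = x j := by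
    intro j t ht h
    rw [← himg] at h
    obtain ⟨j', hj', h'⟩ := Finset.mem_image.1 h
    have h1 : j' ≠ q := Finset.ne_of_mem_erase hj'
    by_cases hjj : j = j'
    · subst hjj
      exact ⟨h1, ((hP.pth j).2 _ (hx j h1).1 t ht h').symm⟩
    · exact absurd h' (hP.dj j' j (Ne.symm hjj) _ (hx j' h1).1 t ht)
  refine ⟨fun j => if j = q then m else x j, fun X hX hXS => ?_⟩
  -- walks inside `X`
  have hXw : ∀ v ∈ X, ∀ w ∈ X, RIn (del D (P q m) (P q (m + 1))) (S : Set V)ᶜ v w := by
    intro v hv w hw
    refine (hX.2 v hv w hw).mono (fun a b hab _ _ => ⟨hKD a b hab, ?_, ?_⟩) fun a ha => hXS a ha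
    · rintro ⟨rfl, rfl⟩
      exact hKm hab
    · rintro ⟨rfl, rfl⟩
      exact hKm (hK _ _ hab)
  have hin : ∀ j t, t ≤ len j → (j = q → t ≤ m) → (j ≠ q → t < x j) →
      RIn (del D (P q m) (P q (m + 1))) (S : Set V)ᶜ (P j 0) (P j t) := by
    intro j t ht h1 h2
    refine seg t (Nat.zero_le _) (fun i _ hi h => ?_) fun i _ hi => hedge j i (by omega) ?_
    · obtain ⟨h3, h4⟩ := hSj j i (by omega) h
      have := h2 h3
      omega
    · by_cases hj : j = q
      · have := h1 hj
        exact Or.inr (by omega)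
      · exact Or.inl hj
  have hout : ∀ j t, t ≤ len j → (j = q → m < t) → (j ≠ q → x j < t) →
      RIn (del D (P q m) (P q (m + 1))) (S : Set V)ᶜ (P j t) (P j (len j)) := by
    intro j t ht h1 h2
    refine seg (len j) ht (fun i hi hi' h => ?_) fun i hi hi' => hedge j i hi' ?_
    · obtain ⟨h3, h4⟩ := hSj j i hi' h
      have := h2 h3
      omega
    · by_cases hj : j = q
      · have := h1 hj
        exact Or.inr (by omega)
      · exact Or.inl hj
  refine ⟨?_, ?_⟩
  · rintro ⟨s, hs, hsX⟩ j t ht htX
    by_contra hlt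
    push Not at hlt
    refine hsep _ (hP.st q) _ (hP.en j) (((hin q s (by omega) (fun _ => hs)
      fun h => absurd rfl h).trans (hXw _ hsX _ htX)).trans (hout j t ht ?_ ?_))
    · intro h
      rwa [if_pos h] at hlt
    · intro h
      rwa [if_neg h] at hlt
  · rintro ⟨s, hs, hs', hsX⟩ j t ht htX
    by_contra hlt
    push Not at hlt
    refine hsep _ (hP.st j) _ (hP.en q) (((hin j t ht ?_ ?_).trans (hXw _ htX _ hsX)).trans
      (hout q s hs' (fun _ => hs) fun h => absurd rfl h))
    · intro h
      rwa [if_pos h] at hlt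
    · intro h
      rw [if_neg h] at hlt
      rcases hlt.lt_or_eq with h1 | h1
      · exact h1
      · exact absurd (h1 ▸ (hx j h).2) (hXS _ htX)

end Pool.Agent.H18.GM
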