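import Pool.Agent.H10.GM.Targets1

/-!
# (EXT) the subcubic connected graph is extended by disjoint paths
-/

set_option autoImplicit false

namespace Pool.Agent.H18.GM

open Pool.Agent.H55.GW Pool.Agent.H10.GM

/-- a segment of a path is a walk -/
private theorem seg0 {V : Type} {D : V → V → Prop} {Z : Set V} {Q : ℕ → V} :
    ∀ b, (∀ i ≤ b, Q i ∈ Z) → (∀ i < b, D (Q i) (Q (i + 1))) → RIn D Z (Q 0) (Q b) := by
  intro b
  induction b with
  | zero => exact fun h _ => RIn.refl (h 0 le_rfl)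
  | succ b ih =>
    intro h1 h2
    exact (ih (fun i hi => h1 i (by omega)) fun i hi => h2 i (by omega)).tail
      (h2 b (by omega)) (h1 (b + 1) le_rfl)

theorem pf_EXT : Pool.Agent.H10.GM.T_EXT := by
  intro V _ E hE C U T C' S P len hpre hC' hCC hSC hNb hne hS hdj
  classical
  -- `S` and the interior of the paths are disjoint from `U`
  have hUC : ∀ v, v ∈ U → v ∈ C → False := fun v h1 h2 =>
    Set.disjoint_left.1 hpre.dj h1 h2
  have hPU : ∀ s ∈ S, ∀ t, 0 < t → t ≤ len s → P s t ∉ U := fun s hs t h1 h2 h3 =>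
    hUC _ h3 ((hS s hs).2.2.2.2.1 t h1 h2).1
  -- equality of points of the paths
  have heq : ∀ s ∈ S, ∀ s' ∈ S, ∀ t ≤ len s, ∀ t' ≤ len s', P s t = P s' t' →
      s = s' ∧ t = t' := by
    intro s hs s' hs' t ht t' ht' h
    by_cases hss : s = s'
    · subst hss
      exact ⟨rfl, (hS s hs).2.1.2 t ht t' ht' h⟩
    · exact absurd h (hdj s hs s' hs' hss t ht t' ht')
  obtain ⟨U', hU'⟩ : ∃ U' : Set V, U' = U ∪ {v | ∃ s ∈ S, ∃ t ≤ len s, v = P s t} := ⟨_, rfl⟩
  obtain ⟨T', hT'⟩ : ∃ T' : V → V → Prop, T' = fun u v => rs T U u v ∨ ∃ s ∈ S, ∃ t < len s,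
      (u = P s t ∧ v = P s (t + 1)) ∨ (v = P s t ∧ u = P s (t + 1)) := ⟨_, rfl⟩
  have hUU : U ⊆ U' := by
    rw [hU']
    exact Set.subset_union_left
  have hPU' : ∀ s ∈ S, ∀ t ≤ len s, P s t ∈ U' := by
    intro s hs t ht
    rw [hU']
    exact Or.inr ⟨s, hs, t, ht, rfl⟩
  have hsy : Sy T' := by
    rw [hT']
    rintro u v (h | ⟨s, hs, t, ht, h⟩)
    · exact Or.inl ⟨hpre.sy _ _ h.1, h.2.2, h.2.1⟩
    · exact Or.inr ⟨s, hs, t, ht, h.symm⟩
  -- degrees of the points of the paths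
  have hdB : ∀ s ∈ S, ∀ t, 0 < t → t ≤ len s → ∀ v, T' (P s t) v →
      v = P s (t - 1) ∨ (t < len s ∧ v = P s (t + 1)) := by
    intro s hs t ht0 ht v hv
    rw [hT'] at hv
    rcases hv with h | ⟨s', hs', t', ht', ⟨h1, h2⟩ | ⟨h1, h2⟩⟩
    · exact absurd h.2.1 (hPU s hs t ht0 ht)
    · obtain ⟨rfl, rfl⟩ := heq s hs s' hs' t ht t' ht'.le h1
      exact Or.inr ⟨ht', h2⟩
    · obtain ⟨rfl, h3⟩ := heq s hs s' hs' t ht (t' + 1) ht' h2
      subst h3
      exact Or.inl h1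
  have hd2B : ∀ s ∈ S, ∀ t, 0 < t → t ≤ len s → dg T' U' (P s t) ≤ 2 := by
    intro s hs t ht0 ht
    unfold dg
    refine (Set.ncard_le_ncard (t := {P s (t - 1), P s (t + 1)}) ?_ (Set.toFinite _)).trans
      ((Set.ncard_insert_le _ _).trans (by rw [Set.ncard_singleton]))
    rintro v ⟨_, hv⟩
    rcases hdB s hs t ht0 ht v hv with h | h
    · exact Or.inl h
    · exact Or.inr h.2
  have hd1B : ∀ s ∈ S, dg T' U' (P s (len s)) ≤ 1 := by
    intro s hs
    unfold dg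
    refine (Set.ncard_le_ncard (t := {P s (len s - 1)}) ?_ (Set.toFinite _)).trans
      (Set.ncard_singleton _).le
    rintro v ⟨_, hv⟩
    rcases hdB s hs _ (hS s hs).1 le_rfl v hv with h | h
    · exact h
    · exact absurd h.1 (lt_irrefl _)
  -- degrees of the points of `U`
  have hdA : ∀ u ∈ U, ∀ v, T' u v → (v ∈ U ∧ T u v) ∨ ∃ s ∈ S, P s 0 = u ∧ v = P s 1 := by
    intro u hu v hv
    rw [hT'] at hv
    rcases hv with h | ⟨s, hs, t, ht, ⟨h1, h2⟩ | ⟨h1, h2⟩⟩
    · exact Or.inl ⟨h.2.2, h.1⟩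
    · rcases Nat.eq_zero_or_pos t with h3 | h3
      · subst h3
        exact Or.inr ⟨s, hs, h1.symm, h2⟩
      · exact absurd (h1 ▸ hu) (hPU s hs t h3 ht.le)
    · exact absurd (h2 ▸ hu) (hPU s hs (t + 1) (Nat.succ_pos t) ht)
  have hdst : ∀ s ∈ S, dg T' U' (P s 0) ≤ dg T U (P s 0) + 1 := by
    intro s hs
    unfold dg
    refine (Set.ncard_le_ncard (t := insert (P s 1) {v | v ∈ U ∧ T (P s 0) v}) ?_
      (Set.toFinite _)).trans (Set.ncard_insert_le _ _)
    rintro v ⟨_, hv⟩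
    rcases hdA _ (hS s hs).2.2.1 v hv with h | ⟨s', hs', h1, h2⟩
    · exact Or.inr h
    · obtain ⟨rfl, -⟩ := heq s' hs' s hs 0 (Nat.zero_le _) 0 (Nat.zero_le _) h1
      exact Or.inl h2
  have hdns : ∀ u ∈ U, (∀ s ∈ S, P s 0 ≠ u) → dg T' U' u ≤ dg T U u := by
    intro u hu hns
    unfold dg
    refine Set.ncard_le_ncard ?_ (Set.toFinite _)
    rintro v ⟨_, hv⟩
    rcases hdA u hu v hv with h | ⟨s, hs, h1, -⟩
    · exact h
    · exact absurd h1 (hns s hs)
  refine ⟨U', T', hC', ?_, hsy, ?_, ?_, ?_, ?_, ?_, ?_⟩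
  · -- connected
    obtain ⟨u₀, hu₀⟩ := hpre.cnU.1
    have h0 : ∀ y ∈ U, RIn T' U' u₀ y := by
      intro y hy
      refine (hpre.cnU.2 u₀ hu₀ y hy).mono (fun a b hab ha hb => ?_) hUU
      rw [hT']
      exact Or.inl ⟨hab, ha, hb⟩
    refine Cn.of_root hsy (x := u₀) (hUU hu₀) fun y hy => ?_
    rw [hU'] at hy
    rcases hy with hy | ⟨s, hs, t, ht, rfl⟩
    · exact h0 y hy
    · refine (h0 _ (hS s hs).2.2.1).trans (seg0 t (fun i hi => hPU' s hs i (hi.trans ht))
        fun i hi => ?_)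
      rw [hT']
      exact Or.inr ⟨s, hs, i, lt_of_lt_of_le hi ht, Or.inl ⟨rfl, rfl⟩⟩
  · -- a subgraph
    intro u v huv
    rw [hT'] at huv
    rcases huv with h | ⟨s, hs, t, ht, ⟨rfl, rfl⟩ | ⟨rfl, rfl⟩⟩
    · exact hpre.le _ _ h.1
    · exact (hS s hs).2.1.1 t ht
    · exact hE _ _ ((hS s hs).2.1.1 t ht)
  · -- disjoint
    rw [Set.disjoint_left]
    intro v hv hvC
    rw [hU'] at hv
    rcases hv with hv | ⟨s, hs, t, ht, rfl⟩
    · exact hUC v hv (hCC hvC)
    · rcases Nat.eq_zero_or_pos t with h3 | h3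
      · subst h3
        exact hUC _ (hS s hs).2.2.1 (hCC hvC)
      · exact ((hS s hs).2.2.2.2.1 t h3 ht).2 hvC
  · -- the neighbours
    intro v hv
    rcases hNb hv with h | h
    · exact hUU (hpre.nb h)
    · have h1 := hPU' v h (len v) le_rfl
      rwa [(hS v h).2.2.2.1] at h1
  · -- degree three
    intro u hu
    rw [hU'] at hu
    have hAll : u ∈ U → dg T' U' u ≤ 3 := by
      intro hu
      by_cases hst : ∃ s ∈ S, P s 0 = u
      · obtain ⟨s, hs, rfl⟩ := hst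
        have h1 := hdst s hs
        have h2 := (hS s hs).2.2.2.2.2.1
        omega
      · push Not at hst
        exact (hdns u hu hst).trans (hpre.d3 u hu)
    rcases hu with hu | ⟨s, hs, t, ht, rfl⟩
    · exact hAll hu
    · rcases Nat.eq_zero_or_pos t with h3 | h3
      · subst h3
        exact hAll (hS s hs).2.2.1
      · exact (hd2B s hs t h3 ht).trans (by norm_num)
  · -- degree two
    intro u hu
    rcases hNb hu with h | h
    · have huU := hpre.nb h
      by_cases hst : ∃ s ∈ S, P s 0 = u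
      · obtain ⟨s, hs, rfl⟩ := hst
        have h1 := hdst s hs
        have h2 := (hS s hs).2.2.2.2.2.2 hu
        omega
      · push Not at hst
        exact (hdns u huU hst).trans (hpre.d2 u h)
    · have h1 := hd1B u h
      rw [(hS u h).2.2.2.1] at h1
      omega
  · -- degree one
    obtain ⟨s, hs, hsS⟩ := hne
    refine ⟨s, hs, ?_⟩
    have h1 := hd1B s hsS
    rwa [(hS s hsS).2.2.2.1] at h1

end Pool.Agent.H18.GM
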